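import Mathlib

set_option autoImplicit false

namespace Pool.Agent.Results.MP_1643f9_gt.FullEvenSphere

open scoped ContDiff

/-- Partial derivative of a vector valued map of the plane in the first coordinate. -/
noncomputable def pdu {m : ℕ} (φ : ℝ × ℝ → EuclideanSpace ℝ (Fin m)) (p : ℝ × ℝ) :
    EuclideanSpace ℝ (Fin m) :=
  fderiv ℝ φ p ((1 : ℝ), (0 : ℝ))

/-- Partial derivative of a vector valued map of the plane in the second coordinate. -/
noncomputable def pdv {m : ℕ} (φ : ℝ × ℝ → EuclideanSpace ℝ (Fin m)) (p : ℝ × ℝ) :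
    EuclideanSpace ℝ (Fin m) :=
  fderiv ℝ φ p ((0 : ℝ), (1 : ℝ))

/-- First coefficient of the metric induced by `x`. -/
noncomputable def gE {m : ℕ} (x : ℝ × ℝ → EuclideanSpace ℝ (Fin m)) (p : ℝ × ℝ) : ℝ :=
  inner ℝ (pdu x p) (pdu x p)

/-- Mixed coefficient of the metric induced by `x`. -/
noncomputable def gF {m : ℕ} (x : ℝ × ℝ → EuclideanSpace ℝ (Fin m)) (p : ℝ × ℝ) : ℝ :=
  inner ℝ (pdu x p) (pdv x p)

/-- Last coefficient of the metric induced by `x`. -/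
noncomputable def gG {m : ℕ} (x : ℝ × ℝ → EuclideanSpace ℝ (Fin m)) (p : ℝ × ℝ) : ℝ :=
  inner ℝ (pdv x p) (pdv x p)

/-- Area density of the metric induced by `x`. -/
noncomputable def area {m : ℕ} (x : ℝ × ℝ → EuclideanSpace ℝ (Fin m)) (p : ℝ × ℝ) : ℝ :=
  Real.sqrt (gE x p * gG x p - gF x p ^ 2)

/-- The Laplace operator (with nonnegative spectrum) of the metric induced by `x`, applied
componentwise to the vector valued map `φ`. -/
noncomputable def lap {m : ℕ} (x φ : ℝ × ℝ → EuclideanSpace ℝ (Fin m)) (p : ℝ × ℝ) :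
    EuclideanSpace ℝ (Fin m) :=
  -((area x p)⁻¹ •
    (pdu (fun q => (area x q)⁻¹ • (gG x q • pdu φ q - gF x q • pdv φ q)) p +
     pdv (fun q => (area x q)⁻¹ • (gE x q • pdv φ q - gF x q • pdu φ q)) p))

/-- `x` is a smooth immersion of the plane. -/
def IsImmersion {m : ℕ} (x : ℝ × ℝ → EuclideanSpace ℝ (Fin m)) : Prop :=
  ContDiff ℝ ∞ x ∧ ∀ p, LinearIndependent ℝ ![pdu x p, pdv x p]

/-- `x` is of 2-type: `x = c + x₁ + x₂` with `c` constant and `x₁`, `x₂` non-constant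
eigenmaps of the Laplace operator of the induced metric, with distinct eigenvalues. -/
def IsTwoType {m : ℕ} (x : ℝ × ℝ → EuclideanSpace ℝ (Fin m)) : Prop :=
  ∃ (c : EuclideanSpace ℝ (Fin m)) (x₁ x₂ : ℝ × ℝ → EuclideanSpace ℝ (Fin m)) (lam₁ lam₂ : ℝ),
    lam₁ ≠ lam₂ ∧ ContDiff ℝ ∞ x₁ ∧ ContDiff ℝ ∞ x₂ ∧
    (∀ a, ∃ p, x₁ p ≠ a) ∧ (∀ a, ∃ p, x₂ p ≠ a) ∧
    (∀ p, x p = c + x₁ p + x₂ p) ∧
    (∀ p, lap x x₁ p = lam₁ • x₁ p) ∧ (∀ p, lap x x₂ p = lam₂ • x₂ p)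

/-- The image of `x` lies in a hypersphere and in no affine hyperplane. -/
def LiesFullyInHypersphere {m : ℕ} (x : ℝ × ℝ → EuclideanSpace ℝ (Fin m)) : Prop :=
  (∃ (o : EuclideanSpace ℝ (Fin m)) (r : ℝ), 0 < r ∧ ∀ p, ‖x p - o‖ = r) ∧
  ∀ (w : EuclideanSpace ℝ (Fin m)) (t : ℝ), w ≠ 0 → ∃ p, inner ℝ w (x p) ≠ t

/-- A plane wave with values in Euclidean space. -/
noncomputable def wave {m : ℕ} (a b : ℝ) (A B : EuclideanSpace ℝ (Fin m)) (p : ℝ × ℝ) :
    EuclideanSpace ℝ (Fin m) :=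
  Real.cos (a * p.1 + b * p.2) • A + Real.sin (a * p.1 + b * p.2) • B

theorem contDiff_wave {m : ℕ} (a b : ℝ) (A B : EuclideanSpace ℝ (Fin m)) :
    ContDiff ℝ ∞ (wave a b A B) := by
  unfold wave
  fun_prop

theorem hasFDerivAt_wave {m : ℕ} (a b : ℝ) (A B : EuclideanSpace ℝ (Fin m)) (p : ℝ × ℝ) :
    HasFDerivAt (wave a b A B)
      ((a • ContinuousLinearMap.fst ℝ ℝ ℝ + b • ContinuousLinearMap.snd ℝ ℝ ℝ).smulRight
        (wave a b B (-A) p)) p := by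
  have h1 : HasFDerivAt (fun q : ℝ × ℝ => a * q.1 + b * q.2)
      (a • ContinuousLinearMap.fst ℝ ℝ ℝ + b • ContinuousLinearMap.snd ℝ ℝ ℝ) p :=
    (hasFDerivAt_fst.const_mul a).add (hasFDerivAt_snd.const_mul b)
  have h2 := (h1.cos.smul_const A).add (h1.sin.smul_const B)
  refine h2.congr_fderiv ?_
  ext q <;> simp [wave] <;> ring

theorem pdu_wave {m : ℕ} (a b : ℝ) (A B : EuclideanSpace ℝ (Fin m)) (p : ℝ × ℝ) :
    pdu (wave a b A B) p = wave a b (a • B) (-(a • A)) p := by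
  unfold pdu
  rw [(hasFDerivAt_wave a b A B p).fderiv]
  simp [wave, smul_smul, mul_comm]

theorem pdv_wave {m : ℕ} (a b : ℝ) (A B : EuclideanSpace ℝ (Fin m)) (p : ℝ × ℝ) :
    pdv (wave a b A B) p = wave a b (b • B) (-(b • A)) p := by
  unfold pdv
  rw [(hasFDerivAt_wave a b A B p).fderiv]
  simp [wave, smul_smul, mul_comm]

/-- A finite sum of plane waves. -/
noncomputable def wsum {m n : ℕ} (a b : Fin n → ℝ) (A B : Fin n → EuclideanSpace ℝ (Fin m))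
    (p : ℝ × ℝ) : EuclideanSpace ℝ (Fin m) :=
  ∑ j, wave (a j) (b j) (A j) (B j) p

theorem contDiff_wsum {m n : ℕ} (a b : Fin n → ℝ) (A B : Fin n → EuclideanSpace ℝ (Fin m)) :
    ContDiff ℝ ∞ (wsum a b A B) := by
  unfold wsum
  exact ContDiff.sum fun j _ => contDiff_wave _ _ _ _

theorem differentiableAt_wave {m : ℕ} (a b : ℝ) (A B : EuclideanSpace ℝ (Fin m)) (p : ℝ × ℝ) :
    DifferentiableAt ℝ (wave a b A B) p := (hasFDerivAt_wave a b A B p).differentiableAt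

theorem pdu_wsum {m n : ℕ} (a b : Fin n → ℝ) (A B : Fin n → EuclideanSpace ℝ (Fin m))
    (p : ℝ × ℝ) :
    pdu (wsum a b A B) p = wsum a b (fun j => a j • B j) (fun j => -(a j • A j)) p := by
  have h : HasFDerivAt (fun q => ∑ j, wave (a j) (b j) (A j) (B j) q)
      (∑ j, fderiv ℝ (wave (a j) (b j) (A j) (B j)) p) p :=
    HasFDerivAt.fun_sum fun j _ => (differentiableAt_wave _ _ _ _ p).hasFDerivAt
  have h' : fderiv ℝ (wsum a b A B) p = ∑ j, fderiv ℝ (wave (a j) (b j) (A j) (B j)) p := h.fderiv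
  unfold pdu wsum
  rw [show fderiv ℝ (fun q => ∑ j, wave (a j) (b j) (A j) (B j) q) p = _ from h']
  simp only [sum_apply]
  exact Finset.sum_congr rfl fun j _ => pdu_wave _ _ _ _ p

theorem pdv_wsum {m n : ℕ} (a b : Fin n → ℝ) (A B : Fin n → EuclideanSpace ℝ (Fin m))
    (p : ℝ × ℝ) :
    pdv (wsum a b A B) p = wsum a b (fun j => b j • B j) (fun j => -(b j • A j)) p := by
  have h : HasFDerivAt (fun q => ∑ j, wave (a j) (b j) (A j) (B j) q)
      (∑ j, fderiv ℝ (wave (a j) (b j) (A j) (B j)) p) p :=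
    HasFDerivAt.fun_sum fun j _ => (differentiableAt_wave _ _ _ _ p).hasFDerivAt
  have h' : fderiv ℝ (wsum a b A B) p = ∑ j, fderiv ℝ (wave (a j) (b j) (A j) (B j)) p := h.fderiv
  unfold pdv wsum
  rw [show fderiv ℝ (fun q => ∑ j, wave (a j) (b j) (A j) (B j) q) p = _ from h']
  simp only [sum_apply]
  exact Finset.sum_congr rfl fun j _ => pdv_wave _ _ _ _ p

theorem pdu_pdu_wsum {m n : ℕ} (a b : Fin n → ℝ) (A B : Fin n → EuclideanSpace ℝ (Fin m))
    (p : ℝ × ℝ) :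
    pdu (pdu (wsum a b A B)) p =
      wsum a b (fun j => -((a j ^ 2) • A j)) (fun j => -((a j ^ 2) • B j)) p := by
  have h : pdu (wsum a b A B) = wsum a b (fun j => a j • B j) (fun j => -(a j • A j)) :=
    funext fun q => pdu_wsum a b A B q
  rw [h, pdu_wsum]
  simp only [smul_neg, smul_smul, pow_two]

theorem pdv_pdv_wsum {m n : ℕ} (a b : Fin n → ℝ) (A B : Fin n → EuclideanSpace ℝ (Fin m))
    (p : ℝ × ℝ) :
    pdv (pdv (wsum a b A B)) p =
      wsum a b (fun j => -((b j ^ 2) • A j)) (fun j => -((b j ^ 2) • B j)) p := by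
  have h : pdv (wsum a b A B) = wsum a b (fun j => b j • B j) (fun j => -(b j • A j)) :=
    funext fun q => pdv_wsum a b A B q
  rw [h, pdv_wsum]
  simp only [smul_neg, smul_smul, pow_two]

theorem flat_laplacian_wsum {m n : ℕ} (a b : Fin n → ℝ)
    (A B : Fin n → EuclideanSpace ℝ (Fin m)) (μ : ℝ) (hμ : ∀ j, a j ^ 2 + b j ^ 2 = μ)
    (p : ℝ × ℝ) :
    pdu (pdu (wsum a b A B)) p + pdv (pdv (wsum a b A B)) p = -(μ • wsum a b A B p) := by
  rw [pdu_pdu_wsum, pdv_pdv_wsum]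
  unfold wsum
  rw [← Finset.sum_add_distrib, Finset.smul_sum, ← Finset.sum_neg_distrib]
  refine Finset.sum_congr rfl fun j _ => ?_
  rw [← hμ j]
  unfold wave
  module

/-- If the induced metric is a constant multiple of the flat metric of the plane, the Laplace
operator is the corresponding multiple of the flat one. -/
theorem lap_of_flat {m : ℕ} (x φ : ℝ × ℝ → EuclideanSpace ℝ (Fin m)) (K : ℝ) (hK : 0 < K)
    (hE : ∀ p, gE x p = K) (hF : ∀ p, gF x p = 0) (hG : ∀ p, gG x p = K) (p : ℝ × ℝ) :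
    lap x φ p = -(K⁻¹ • (pdu (pdu φ) p + pdv (pdv φ) p)) := by
  have harea : ∀ q, area x q = K := by
    intro q
    unfold area
    rw [hE, hF, hG]
    rw [show K * K - (0 : ℝ) ^ 2 = K ^ 2 by ring, Real.sqrt_sq hK.le]
  unfold lap
  have h1 : (fun q => (area x q)⁻¹ • (gG x q • pdu φ q - gF x q • pdv φ q)) = pdu φ := by
    funext q
    rw [harea, hF, hG, zero_smul, sub_zero, smul_smul, inv_mul_cancel₀ hK.ne', one_smul]
  have h2 : (fun q => (area x q)⁻¹ • (gE x q • pdv φ q - gF x q • pdu φ q)) = pdv φ := by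
    funext q
    rw [harea, hE, hF, zero_smul, sub_zero, smul_smul, inv_mul_cancel₀ hK.ne', one_smul]
  rw [h1, h2, harea]

/-- First frequencies of the part with flat eigenvalue `64`. -/
noncomputable def a1 : Fin 5 → ℝ := ![8, 4, -4, 7, 7]

/-- Second frequencies of the part with flat eigenvalue `64`. -/
noncomputable def b1 : Fin 5 → ℝ := ![0, 4 * √3, 4 * √3, √15, -√15]

noncomputable def A1 : Fin 5 → EuclideanSpace ℝ (Fin 9) :=
  ![!₂[0, 3 * √3, 0, 0, 0, 0, 0, 0, 0],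
    !₂[0, 0, 0, 2 * √5, 0, 0, 0, 0, 0],
    !₂[0, 0, 0, 2 * √5, 0, 0, 0, 0, 0],
    !₂[0, 0, 0, 0, 0, 4, 0, 0, 0],
    !₂[0, 0, 0, 0, 0, 0, 0, 4, 0]]

noncomputable def B1 : Fin 5 → EuclideanSpace ℝ (Fin 9) :=
  ![!₂[0, 0, 3 * √3, 0, 0, 0, 0, 0, 0],
    !₂[0, 0, 0, 0, 2 * √5, 0, 0, 0, 0],
    !₂[0, 0, 0, 0, 2 * √5, 0, 0, 0, 0],
    !₂[0, 0, 0, 0, 0, 0, 4, 0, 0],
    !₂[0, 0, 0, 0, 0, 0, 0, 0, 4]]

/-- First frequencies of the part with flat eigenvalue `16`. -/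
noncomputable def a2 : Fin 3 → ℝ := ![4, -1, -1]

/-- Second frequencies of the part with flat eigenvalue `16`. -/
noncomputable def b2 : Fin 3 → ℝ := ![0, √15, -√15]

noncomputable def A2 : Fin 3 → EuclideanSpace ℝ (Fin 9) :=
  ![!₂[4 * √2, 0, 0, 0, 0, 0, 0, 0, 0],
    !₂[0, 0, 0, 0, 0, -8, 0, 0, 0],
    !₂[0, 0, 0, 0, 0, 0, 0, -8, 0]]

noncomputable def B2 : Fin 3 → EuclideanSpace ℝ (Fin 9) :=
  ![!₂[0, 0, 0, 0, 0, 0, 0, 0, 0],
    !₂[0, 0, 0, 0, 0, 0, -8, 0, 0],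
    !₂[0, 0, 0, 0, 0, 0, 0, 0, -8]]

noncomputable def cc : EuclideanSpace ℝ (Fin 9) := !₂[0, 4 * √3, 0, 0, 0, 0, 0, 0, 0]

/-- The example: a flat surface in the sphere of radius `√291` of Euclidean 9-space. -/
noncomputable def X (p : ℝ × ℝ) : EuclideanSpace ℝ (Fin 9) :=
  cc + wsum a1 b1 A1 B1 p + wsum a2 b2 A2 B2 p

theorem pdu_X (p : ℝ × ℝ) : pdu X p =
    wsum a1 b1 (fun j => a1 j • B1 j) (fun j => -(a1 j • A1 j)) p +
    wsum a2 b2 (fun j => a2 j • B2 j) (fun j => -(a2 j • A2 j)) p := by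
  have h1 : DifferentiableAt ℝ (wsum a1 b1 A1 B1) p :=
    (contDiff_wsum a1 b1 A1 B1).differentiable (by simp) p
  have h2 : DifferentiableAt ℝ (wsum a2 b2 A2 B2) p :=
    (contDiff_wsum a2 b2 A2 B2).differentiable (by simp) p
  have h : HasFDerivAt X (fderiv ℝ (wsum a1 b1 A1 B1) p + fderiv ℝ (wsum a2 b2 A2 B2) p) p := by
    have := ((hasFDerivAt_const cc p).add h1.hasFDerivAt).add h2.hasFDerivAt
    rw [zero_add] at this
    exact this
  rw [← pdu_wsum, ← pdu_wsum]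
  unfold pdu
  rw [h.fderiv]
  rfl

theorem pdv_X (p : ℝ × ℝ) : pdv X p =
    wsum a1 b1 (fun j => b1 j • B1 j) (fun j => -(b1 j • A1 j)) p +
    wsum a2 b2 (fun j => b2 j • B2 j) (fun j => -(b2 j • A2 j)) p := by
  have h1 : DifferentiableAt ℝ (wsum a1 b1 A1 B1) p :=
    (contDiff_wsum a1 b1 A1 B1).differentiable (by simp) p
  have h2 : DifferentiableAt ℝ (wsum a2 b2 A2 B2) p :=
    (contDiff_wsum a2 b2 A2 B2).differentiable (by simp) p
  have h : HasFDerivAt X (fderiv ℝ (wsum a1 b1 A1 B1) p + fderiv ℝ (wsum a2 b2 A2 B2) p) p := by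
    have := ((hasFDerivAt_const cc p).add h1.hasFDerivAt).add h2.hasFDerivAt
    rw [zero_add] at this
    exact this
  rw [← pdv_wsum, ← pdv_wsum]
  unfold pdv
  rw [h.fderiv]
  rfl

theorem inner_eq (v w : EuclideanSpace ℝ (Fin 9)) :
    inner ℝ v w = v 0 * w 0 + v 1 * w 1 + v 2 * w 2 + v 3 * w 3 + v 4 * w 4 + v 5 * w 5 +
      v 6 * w 6 + v 7 * w 7 + v 8 * w 8 := by
  rw [PiLp.inner_apply]
  simp [Fin.sum_univ_succ]
  ring

theorem sq_id (α β t δ : ℝ) :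
    (α * Real.cos (δ + t) + β * Real.cos t) ^ 2 + (α * Real.sin (δ + t) + β * Real.sin t) ^ 2 =
      α ^ 2 + β ^ 2 + 2 * α * β * Real.cos δ := by
  rw [Real.cos_add, Real.sin_add]
  linear_combination
    (α ^ 2 * (Real.cos t ^ 2 + Real.sin t ^ 2)) * Real.sin_sq_add_cos_sq δ +
    (α ^ 2 + β ^ 2 + 2 * α * β * Real.cos δ) * Real.sin_sq_add_cos_sq t

theorem gE_X (p : ℝ × ℝ) : gE X p = 4320 := by
  unfold gE
  rw [inner_eq, pdu_X]
  simp only [wsum, wave, Fin.sum_univ_succ, a1, b1, A1, B1, a2, b2, A2, B2]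
  simp
  have e1 := sq_id 28 8 (-p.1 + √15 * p.2) (8 * p.1)
  rw [show 8 * p.1 + (-p.1 + √15 * p.2) = 7 * p.1 + √15 * p.2 by ring] at e1
  have e2 := sq_id 28 8 (-p.1 + -(√15 * p.2)) (8 * p.1)
  rw [show 8 * p.1 + (-p.1 + -(√15 * p.2)) = 7 * p.1 + -(√15 * p.2) by ring] at e2
  have e3 := sq_id (8 * √5) (-(8 * √5)) (-(4 * p.1) + 4 * √3 * p.2) (8 * p.1)
  rw [show 8 * p.1 + (-(4 * p.1) + 4 * √3 * p.2) = 4 * p.1 + 4 * √3 * p.2 by ring] at e3
  have e4 := Real.sin_sq_add_cos_sq (8 * p.1)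
  have e5 : Real.cos (8 * p.1) = 1 - 2 * Real.sin (4 * p.1) ^ 2 := by
    rw [show 8 * p.1 = 2 * (4 * p.1) by ring, Real.cos_two_mul']
    linear_combination Real.sin_sq_add_cos_sq (4 * p.1)
  have h2 : √2 ^ 2 = 2 := Real.sq_sqrt (by norm_num)
  have h3 : √3 ^ 2 = 3 := Real.sq_sqrt (by norm_num)
  have h5 : √5 ^ 2 = 5 := Real.sq_sqrt (by norm_num)
  linear_combination e1 + e2 + e3 + 1728 * e4 + (256 * Real.sin (4 * p.1) ^ 2) * h2 +
    (576 * (Real.sin (8 * p.1) ^ 2 + Real.cos (8 * p.1) ^ 2)) * h3 +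
    (128 - 128 * Real.cos (8 * p.1)) * h5 + 256 * e5

theorem mul_id (α β α' β' t δ : ℝ) :
    (α * Real.cos (δ + t) + β * Real.cos t) * (α' * Real.cos (δ + t) + β' * Real.cos t) +
      (α * Real.sin (δ + t) + β * Real.sin t) * (α' * Real.sin (δ + t) + β' * Real.sin t) =
      α * α' + β * β' + (α * β' + α' * β) * Real.cos δ := by
  rw [Real.cos_add, Real.sin_add]
  linear_combination
    (α * α' * (Real.cos t ^ 2 + Real.sin t ^ 2)) * Real.sin_sq_add_cos_sq δ +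
    (α * α' + β * β' + (α * β' + α' * β) * Real.cos δ) * Real.sin_sq_add_cos_sq t

theorem gG_X (p : ℝ × ℝ) : gG X p = 4320 := by
  unfold gG
  rw [inner_eq, pdv_X]
  simp only [wsum, wave, Fin.sum_univ_succ, a1, b1, A1, B1, a2, b2, A2, B2]
  simp
  have e1 := sq_id (4 * √15) (-(8 * √15)) (-p.1 + √15 * p.2) (8 * p.1)
  rw [show 8 * p.1 + (-p.1 + √15 * p.2) = 7 * p.1 + √15 * p.2 by ring] at e1
  have e2 := sq_id (4 * √15) (-(8 * √15)) (-p.1 + -(√15 * p.2)) (8 * p.1)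
  rw [show 8 * p.1 + (-p.1 + -(√15 * p.2)) = 7 * p.1 + -(√15 * p.2) by ring] at e2
  have e3 := sq_id (8 * √3 * √5) (8 * √3 * √5) (-(4 * p.1) + 4 * √3 * p.2) (8 * p.1)
  rw [show 8 * p.1 + (-(4 * p.1) + 4 * √3 * p.2) = 4 * p.1 + 4 * √3 * p.2 by ring] at e3
  have h3 : √3 ^ 2 = 3 := Real.sq_sqrt (by norm_num)
  have h5 : √5 ^ 2 = 5 := Real.sq_sqrt (by norm_num)
  have h15 : √15 ^ 2 = 15 := Real.sq_sqrt (by norm_num)
  linear_combination e1 + e2 + e3 +
    (128 * √5 ^ 2 * (1 + Real.cos (8 * p.1))) * h3 + (384 * (1 + Real.cos (8 * p.1))) * h5 +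
    (160 - 128 * Real.cos (8 * p.1)) * h15

theorem gF_X (p : ℝ × ℝ) : gF X p = 0 := by
  unfold gF
  rw [inner_eq, pdu_X, pdv_X]
  simp only [wsum, wave, Fin.sum_univ_succ, a1, b1, A1, B1, a2, b2, A2, B2]
  simp
  have e1 := mul_id 28 8 (4 * √15) (-(8 * √15)) (-p.1 + √15 * p.2) (8 * p.1)
  rw [show 8 * p.1 + (-p.1 + √15 * p.2) = 7 * p.1 + √15 * p.2 by ring] at e1
  have e2 := mul_id 28 8 (-(4 * √15)) (8 * √15) (-p.1 + -(√15 * p.2)) (8 * p.1)
  rw [show 8 * p.1 + (-p.1 + -(√15 * p.2)) = 7 * p.1 + -(√15 * p.2) by ring] at e2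
  have e3 := mul_id (8 * √5) (-(8 * √5)) (8 * √3 * √5) (8 * √3 * √5)
    (-(4 * p.1) + 4 * √3 * p.2) (8 * p.1)
  rw [show 8 * p.1 + (-(4 * p.1) + 4 * √3 * p.2) = 4 * p.1 + 4 * √3 * p.2 by ring] at e3
  linear_combination e1 + e2 + e3

theorem norm_X (p : ℝ × ℝ) : ‖X p‖ ^ 2 = 291 := by
  rw [← real_inner_self_eq_norm_sq, inner_eq]
  simp only [X, cc, wsum, wave, Fin.sum_univ_succ, a1, b1, A1, B1, a2, b2, A2, B2]
  simp
  have e1 := sq_id 4 (-8) (-p.1 + √15 * p.2) (8 * p.1)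
  rw [show 8 * p.1 + (-p.1 + √15 * p.2) = 7 * p.1 + √15 * p.2 by ring] at e1
  have e2 := sq_id 4 (-8) (-p.1 + -(√15 * p.2)) (8 * p.1)
  rw [show 8 * p.1 + (-p.1 + -(√15 * p.2)) = 7 * p.1 + -(√15 * p.2) by ring] at e2
  have e3 := sq_id (2 * √5) (2 * √5) (-(4 * p.1) + 4 * √3 * p.2) (8 * p.1)
  rw [show 8 * p.1 + (-(4 * p.1) + 4 * √3 * p.2) = 4 * p.1 + 4 * √3 * p.2 by ring] at e3
  have e4 := Real.sin_sq_add_cos_sq (8 * p.1)
  have e5 : Real.cos (8 * p.1) = 2 * Real.cos (4 * p.1) ^ 2 - 1 := by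
    rw [show 8 * p.1 = 2 * (4 * p.1) by ring, Real.cos_two_mul]
  have h2 : √2 ^ 2 = 2 := Real.sq_sqrt (by norm_num)
  have h3 : √3 ^ 2 = 3 := Real.sq_sqrt (by norm_num)
  have h5 : √5 ^ 2 = 5 := Real.sq_sqrt (by norm_num)
  linear_combination e1 + e2 + e3 + 27 * e4 + (16 * Real.cos (4 * p.1) ^ 2) * h2 +
    (16 + 24 * Real.cos (8 * p.1) + 9 * (Real.sin (8 * p.1) ^ 2 + Real.cos (8 * p.1) ^ 2)) * h3 +
    (8 + 8 * Real.cos (8 * p.1)) * h5 - 16 * e5

theorem contDiff_X : ContDiff ℝ ∞ X := by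
  unfold X
  exact (contDiff_const.add (contDiff_wsum _ _ _ _)).add (contDiff_wsum _ _ _ _)

theorem isImmersion_X : IsImmersion X := by
  refine ⟨contDiff_X, fun p => ?_⟩
  rw [LinearIndependent.pair_iff]
  intro s t hst
  have hE : inner ℝ (pdu X p) (pdu X p) = (4320 : ℝ) := gE_X p
  have hF : inner ℝ (pdu X p) (pdv X p) = (0 : ℝ) := gF_X p
  have hG : inner ℝ (pdv X p) (pdv X p) = (4320 : ℝ) := gG_X p
  have h1 : inner ℝ (pdu X p) (s • pdu X p + t • pdv X p) = (0 : ℝ) := by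
    rw [hst, inner_zero_right]
  have h2 : inner ℝ (s • pdu X p + t • pdv X p) (pdv X p) = (0 : ℝ) := by
    rw [hst, inner_zero_left]
  rw [inner_add_right, inner_smul_right, inner_smul_right, hE, hF] at h1
  rw [inner_add_left, real_inner_smul_left, real_inner_smul_left, hF, hG] at h2
  constructor <;> linarith

theorem mu1 : ∀ j, a1 j ^ 2 + b1 j ^ 2 = 64 := by
  have h3 : √3 ^ 2 = 3 := Real.sq_sqrt (by norm_num)
  have h15 : √15 ^ 2 = 15 := Real.sq_sqrt (by norm_num)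
  intro j
  fin_cases j <;> simp [a1, b1, mul_pow] <;> norm_num

theorem mu2 : ∀ j, a2 j ^ 2 + b2 j ^ 2 = 16 := by
  have h15 : √15 ^ 2 = 15 := Real.sq_sqrt (by norm_num)
  intro j
  fin_cases j <;> simp [a2, b2] <;> norm_num

theorem isTwoType_X : IsTwoType X := by
  refine ⟨cc, wsum a1 b1 A1 B1, wsum a2 b2 A2 B2, 64 / 4320, 16 / 4320, by norm_num,
    contDiff_wsum _ _ _ _, contDiff_wsum _ _ _ _, ?_, ?_, fun p => rfl, ?_, ?_⟩
  · intro a
    by_contra hcon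
    push Not at hcon
    have h0 : (wsum a1 b1 A1 B1 ((0 : ℝ), (0 : ℝ))) 1 = (wsum a1 b1 A1 B1 (Real.pi / 8, (0 : ℝ))) 1 := by
      rw [hcon, hcon]
    simp [wsum, wave, Fin.sum_univ_succ, a1, b1, A1, B1, mul_div_cancel₀] at h0
    have h3 : 0 < √3 := Real.sqrt_pos.mpr (by norm_num)
    linarith
  · intro a
    by_contra hcon
    push Not at hcon
    have h0 : (wsum a2 b2 A2 B2 ((0 : ℝ), (0 : ℝ))) 0 = (wsum a2 b2 A2 B2 (Real.pi / 4, (0 : ℝ))) 0 := by
      rw [hcon, hcon]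
    simp [wsum, wave, Fin.sum_univ_succ, a2, b2, A2, B2, mul_div_cancel₀] at h0
    have h2 : 0 < √2 := Real.sqrt_pos.mpr (by norm_num)
    linarith
  · intro p
    rw [lap_of_flat X _ 4320 (by norm_num) gE_X gF_X gG_X,
      flat_laplacian_wsum a1 b1 A1 B1 64 mu1 p]
    module
  · intro p
    rw [lap_of_flat X _ 4320 (by norm_num) gE_X gF_X gG_X,
      flat_laplacian_wsum a2 b2 A2 B2 16 mu2 p]
    module

theorem inner_pdu_const {m : ℕ} (φ : ℝ × ℝ → EuclideanSpace ℝ (Fin m)) (hφ : Differentiable ℝ φ)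
    (w : EuclideanSpace ℝ (Fin m)) (t : ℝ) (h : ∀ p, inner ℝ w (φ p) = t) (p : ℝ × ℝ) :
    inner ℝ w (pdu φ p) = (0 : ℝ) := by
  have h1 : HasFDerivAt (fun q => (innerSL ℝ w) (φ q)) ((innerSL ℝ w).comp (fderiv ℝ φ p)) p :=
    (innerSL ℝ w).hasFDerivAt.comp p (hφ p).hasFDerivAt
  have h2 : (fun q => (innerSL ℝ w) (φ q)) = fun _ => t := funext fun q => h q
  rw [h2] at h1
  have h3 := h1.unique (hasFDerivAt_const t p)
  have h4 := congrArg (fun L => L ((1 : ℝ), (0 : ℝ))) h3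
  simpa [pdu, pdv] using h4

theorem inner_pdv_const {m : ℕ} (φ : ℝ × ℝ → EuclideanSpace ℝ (Fin m)) (hφ : Differentiable ℝ φ)
    (w : EuclideanSpace ℝ (Fin m)) (t : ℝ) (h : ∀ p, inner ℝ w (φ p) = t) (p : ℝ × ℝ) :
    inner ℝ w (pdv φ p) = (0 : ℝ) := by
  have h1 : HasFDerivAt (fun q => (innerSL ℝ w) (φ q)) ((innerSL ℝ w).comp (fderiv ℝ φ p)) p :=
    (innerSL ℝ w).hasFDerivAt.comp p (hφ p).hasFDerivAt
  have h2 : (fun q => (innerSL ℝ w) (φ q)) = fun _ => t := funext fun q => h q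
  rw [h2] at h1
  have h3 := h1.unique (hasFDerivAt_const t p)
  have h4 := congrArg (fun L => L ((0 : ℝ), (1 : ℝ))) h3
  simpa [pdu, pdv] using h4

theorem wave_smul {m : ℕ} (a b s : ℝ) (A B : EuclideanSpace ℝ (Fin m)) (p : ℝ × ℝ) :
    wave a b (s • A) (s • B) p = s • wave a b A B p := by
  unfold wave
  module

/-- Weighted sum of the components along `w` of the waves making up the example. -/
noncomputable def H (w : EuclideanSpace ℝ (Fin 9)) (s1 : Fin 5 → ℝ) (s2 : Fin 3 → ℝ)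
    (p : ℝ × ℝ) : ℝ :=
  ∑ j, s1 j * inner ℝ w (wave (a1 j) (b1 j) (A1 j) (B1 j) p) +
  ∑ j, s2 j * inner ℝ w (wave (a2 j) (b2 j) (A2 j) (B2 j) p)

theorem H_eq (w : EuclideanSpace ℝ (Fin 9)) (s1 : Fin 5 → ℝ) (s2 : Fin 3 → ℝ) (p : ℝ × ℝ) :
    H w s1 s2 p = inner ℝ w
      (wsum a1 b1 (fun j => s1 j • A1 j) (fun j => s1 j • B1 j) p +
       wsum a2 b2 (fun j => s2 j • A2 j) (fun j => s2 j • B2 j) p) := by
  unfold H wsum
  rw [inner_add_right, inner_sum, inner_sum]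
  congr 1 <;> refine Finset.sum_congr rfl fun j _ => ?_ <;>
    rw [wave_smul, inner_smul_right]

theorem pdu_add_wsum {m n k : ℕ} (a b : Fin n → ℝ) (A B : Fin n → EuclideanSpace ℝ (Fin m))
    (a' b' : Fin k → ℝ) (A' B' : Fin k → EuclideanSpace ℝ (Fin m)) (p : ℝ × ℝ) :
    pdu (fun q => wsum a b A B q + wsum a' b' A' B' q) p =
      pdu (wsum a b A B) p + pdu (wsum a' b' A' B') p := by
  have h1 : DifferentiableAt ℝ (wsum a b A B) p :=
    (contDiff_wsum a b A B).differentiable (by simp) p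
  have h2 : DifferentiableAt ℝ (wsum a' b' A' B') p :=
    (contDiff_wsum a' b' A' B').differentiable (by simp) p
  have h := (h1.hasFDerivAt.add h2.hasFDerivAt).fderiv
  unfold pdu
  rw [show (fun q => wsum a b A B q + wsum a' b' A' B' q) = wsum a b A B + wsum a' b' A' B' from
    rfl, h]
  rfl

theorem pdv_add_wsum {m n k : ℕ} (a b : Fin n → ℝ) (A B : Fin n → EuclideanSpace ℝ (Fin m))
    (a' b' : Fin k → ℝ) (A' B' : Fin k → EuclideanSpace ℝ (Fin m)) (p : ℝ × ℝ) :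
    pdv (fun q => wsum a b A B q + wsum a' b' A' B' q) p =
      pdv (wsum a b A B) p + pdv (wsum a' b' A' B') p := by
  have h1 : DifferentiableAt ℝ (wsum a b A B) p :=
    (contDiff_wsum a b A B).differentiable (by simp) p
  have h2 : DifferentiableAt ℝ (wsum a' b' A' B') p :=
    (contDiff_wsum a' b' A' B').differentiable (by simp) p
  have h := (h1.hasFDerivAt.add h2.hasFDerivAt).fderiv
  unfold pdv
  rw [show (fun q => wsum a b A B q + wsum a' b' A' B' q) = wsum a b A B + wsum a' b' A' B' from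
    rfl, h]
  rfl

theorem differentiable_add_wsum {m n k : ℕ} (a b : Fin n → ℝ)
    (A B : Fin n → EuclideanSpace ℝ (Fin m))
    (a' b' : Fin k → ℝ) (A' B' : Fin k → EuclideanSpace ℝ (Fin m)) :
    Differentiable ℝ (fun q => wsum a b A B q + wsum a' b' A' B' q) :=
  ((contDiff_wsum a b A B).differentiable (by simp)).add
    ((contDiff_wsum a' b' A' B').differentiable (by simp))

theorem H_step_u (w : EuclideanSpace ℝ (Fin 9)) (s1 : Fin 5 → ℝ) (s2 : Fin 3 → ℝ) (t : ℝ)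
    (h : ∀ p, H w s1 s2 p = t) (p : ℝ × ℝ) :
    H w (fun j => a1 j ^ 2 * s1 j) (fun j => a2 j ^ 2 * s2 j) p = 0 := by
  have h1 : ∀ q, inner ℝ w (wsum a1 b1 (fun j => a1 j • (s1 j • B1 j))
      (fun j => -(a1 j • (s1 j • A1 j))) q +
      wsum a2 b2 (fun j => a2 j • (s2 j • B2 j)) (fun j => -(a2 j • (s2 j • A2 j))) q) = 0 := by
    intro q
    have := inner_pdu_const _ (differentiable_add_wsum a1 b1 (fun j => s1 j • A1 j)
      (fun j => s1 j • B1 j) a2 b2 (fun j => s2 j • A2 j) (fun j => s2 j • B2 j)) w t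
      (fun q => (H_eq w s1 s2 q).symm.trans (h q)) q
    rw [pdu_add_wsum, pdu_wsum, pdu_wsum] at this
    exact this
  have h2 := inner_pdu_const _ (differentiable_add_wsum a1 b1 _ _ a2 b2 _ _) w 0 h1 p
  rw [pdu_add_wsum, pdu_wsum, pdu_wsum] at h2
  rw [H_eq]
  have e1 : wsum a1 b1 (fun j => (a1 j ^ 2 * s1 j) • A1 j) (fun j => (a1 j ^ 2 * s1 j) • B1 j) p =
      -wsum a1 b1 (fun j => a1 j • -(a1 j • (s1 j • A1 j)))
        (fun j => -(a1 j • (a1 j • (s1 j • B1 j)))) p := by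
    unfold wsum
    rw [← Finset.sum_neg_distrib]
    refine Finset.sum_congr rfl fun j _ => ?_
    unfold wave
    module
  have e2 : wsum a2 b2 (fun j => (a2 j ^ 2 * s2 j) • A2 j) (fun j => (a2 j ^ 2 * s2 j) • B2 j) p =
      -wsum a2 b2 (fun j => a2 j • -(a2 j • (s2 j • A2 j)))
        (fun j => -(a2 j • (a2 j • (s2 j • B2 j)))) p := by
    unfold wsum
    rw [← Finset.sum_neg_distrib]
    refine Finset.sum_congr rfl fun j _ => ?_
    unfold wave
    module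
  rw [e1, e2, ← neg_add, inner_neg_right, h2, neg_zero]

theorem H_step_v (w : EuclideanSpace ℝ (Fin 9)) (s1 : Fin 5 → ℝ) (s2 : Fin 3 → ℝ) (t : ℝ)
    (h : ∀ p, H w s1 s2 p = t) (p : ℝ × ℝ) :
    H w (fun j => b1 j ^ 2 * s1 j) (fun j => b2 j ^ 2 * s2 j) p = 0 := by
  have h1 : ∀ q, inner ℝ w (wsum a1 b1 (fun j => b1 j • (s1 j • B1 j))
      (fun j => -(b1 j • (s1 j • A1 j))) q +
      wsum a2 b2 (fun j => b2 j • (s2 j • B2 j)) (fun j => -(b2 j • (s2 j • A2 j))) q) = 0 := by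
    intro q
    have := inner_pdv_const _ (differentiable_add_wsum a1 b1 (fun j => s1 j • A1 j)
      (fun j => s1 j • B1 j) a2 b2 (fun j => s2 j • A2 j) (fun j => s2 j • B2 j)) w t
      (fun q => (H_eq w s1 s2 q).symm.trans (h q)) q
    rw [pdv_add_wsum, pdv_wsum, pdv_wsum] at this
    exact this
  have h2 := inner_pdv_const _ (differentiable_add_wsum a1 b1 _ _ a2 b2 _ _) w 0 h1 p
  rw [pdv_add_wsum, pdv_wsum, pdv_wsum] at h2
  rw [H_eq]
  have e1 : wsum a1 b1 (fun j => (b1 j ^ 2 * s1 j) • A1 j) (fun j => (b1 j ^ 2 * s1 j) • B1 j) p =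
      -wsum a1 b1 (fun j => b1 j • -(b1 j • (s1 j • A1 j)))
        (fun j => -(b1 j • (b1 j • (s1 j • B1 j)))) p := by
    unfold wsum
    rw [← Finset.sum_neg_distrib]
    refine Finset.sum_congr rfl fun j _ => ?_
    unfold wave
    module
  have e2 : wsum a2 b2 (fun j => (b2 j ^ 2 * s2 j) • A2 j) (fun j => (b2 j ^ 2 * s2 j) • B2 j) p =
      -wsum a2 b2 (fun j => b2 j • -(b2 j • (s2 j • A2 j)))
        (fun j => -(b2 j • (b2 j • (s2 j • B2 j)))) p := by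
    unfold wsum
    rw [← Finset.sum_neg_distrib]
    refine Finset.sum_congr rfl fun j _ => ?_
    unfold wave
    module
  rw [e1, e2, ← neg_add, inner_neg_right, h2, neg_zero]

theorem separated (w : EuclideanSpace ℝ (Fin 9)) (t : ℝ) (h : ∀ p, inner ℝ w (X p) = t)
    (p : ℝ × ℝ) :
    inner ℝ w (wave (a1 0) (b1 0) (A1 0) (B1 0) p) = 0 ∧
    inner ℝ w (wave (a1 1) (b1 1) (A1 1) (B1 1) p) +
      inner ℝ w (wave (a1 2) (b1 2) (A1 2) (B1 2) p) = 0 ∧
    inner ℝ w (wave (a1 3) (b1 3) (A1 3) (B1 3) p) +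
      inner ℝ w (wave (a1 4) (b1 4) (A1 4) (B1 4) p) = 0 ∧
    inner ℝ w (wave (a2 0) (b2 0) (A2 0) (B2 0) p) = 0 := by
  have h00 : ∀ q, H w (fun _ => 1) (fun _ => 1) q = t - inner ℝ w cc := by
    intro q
    rw [H_eq, ← h q]
    unfold X
    simp only [one_smul, inner_add_right]
    ring
  have h10 := H_step_u w _ _ _ h00
  have h20 := H_step_u w _ _ _ h10 p
  have h01 := H_step_v w _ _ _ h00
  have h02 := H_step_v w _ _ _ h01 p
  have h11 := H_step_u w _ _ _ h01 p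
  have h10 := h10 p
  have h01 := h01 p
  simp only [H, Fin.sum_univ_five, Fin.sum_univ_three] at h10 h20 h01 h02 h11
  generalize inner ℝ w (wave (a1 0) (b1 0) (A1 0) (B1 0) p) = f0 at *
  generalize inner ℝ w (wave (a1 1) (b1 1) (A1 1) (B1 1) p) = f1 at *
  generalize inner ℝ w (wave (a1 2) (b1 2) (A1 2) (B1 2) p) = f2 at *
  generalize inner ℝ w (wave (a1 3) (b1 3) (A1 3) (B1 3) p) = f3 at *
  generalize inner ℝ w (wave (a1 4) (b1 4) (A1 4) (B1 4) p) = f4 at *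
  generalize inner ℝ w (wave (a2 0) (b2 0) (A2 0) (B2 0) p) = f5 at *
  generalize inner ℝ w (wave (a2 1) (b2 1) (A2 1) (B2 1) p) = f6 at *
  generalize inner ℝ w (wave (a2 2) (b2 2) (A2 2) (B2 2) p) = f7 at *
  have h3 : √3 ^ 2 = 3 := Real.sq_sqrt (by norm_num)
  have h15 : √15 ^ 2 = 15 := Real.sq_sqrt (by norm_num)
  simp [a1, b1, a2, b2, mul_pow, h3, h15] at h10 h20 h01 h02 h11
  norm_num at h10 h20 h01 h02 h11
  refine ⟨?_, ?_, ?_, ?_⟩ <;> linarith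

theorem full_X (w : EuclideanSpace ℝ (Fin 9)) (t : ℝ) (h : ∀ p, inner ℝ w (X p) = t) :
    w = 0 := by
  have key := separated w t h
  have k1 := key (0, 0)
  have k2 := key (Real.pi / 16, 0)
  have k3 := key (0, Real.pi / 2 / (4 * √3))
  have k4 := key (Real.pi / 14, 0)
  have k5 := key (0, Real.pi / 2 / √15)
  have k6 := key (Real.pi / 14, Real.pi / 2 / √15)
  simp only [inner_eq] at k1 k2 k3 k4 k5 k6
  simp [wave, a1, b1, A1, B1, a2, b2, A2, B2] at k1 k2 k3 k4 k5 k6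
  have hs3 : (4 * √3) ≠ 0 := by positivity
  have hs15 : √15 ≠ 0 := by positivity
  have hs5 : 0 < √5 := by positivity
  have hp3 : 0 < √3 := by positivity
  have r2 : 8 * (Real.pi / 16) = Real.pi / 2 := by ring
  have r3 : 4 * √3 * (Real.pi / 2 / (4 * √3)) = Real.pi / 2 := mul_div_cancel₀ _ hs3
  have r4 : 7 * (Real.pi / 14) = Real.pi / 2 := by ring
  have r5 : √15 * (Real.pi / 2 / √15) = Real.pi / 2 := mul_div_cancel₀ _ hs15
  have r6 : Real.pi / 2 + Real.pi / 2 = Real.pi := by ring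
  have r7 : Real.pi / 2 + -(Real.pi / 2) = 0 := by ring
  obtain ⟨w1, w3, w57, w0⟩ := k1
  have w2 := k2.1
  rw [r2, Real.cos_pi_div_two, Real.sin_pi_div_two] at w2
  have w4 := k3.2.1
  rw [r3, Real.cos_pi_div_two, Real.sin_pi_div_two] at w4
  have w68 := k4.2.2.1
  rw [r4, Real.cos_pi_div_two, Real.sin_pi_div_two] at w68
  have w68' := k5.2.2.1
  rw [r5, Real.cos_pi_div_two, Real.sin_pi_div_two] at w68'
  have w57' := k6.2.2.1
  rw [r4, r5, r6, r7, Real.cos_pi, Real.sin_pi, Real.cos_zero, Real.sin_zero] at w57'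
  have w2' : w 2 = 0 := by
    have : w 2 * (3 * √3) = 0 := by linarith
    rcases mul_eq_zero.mp this with h | h
    · exact h
    · exact absurd h (by positivity)
  have w4' : w 4 = 0 := by
    have : w 4 * (2 * √5) = 0 := by linarith
    rcases mul_eq_zero.mp this with h | h
    · exact h
    · exact absurd h (by positivity)
  have w5' : w 5 = 0 := by linarith
  have w6' : w 6 = 0 := by linarith
  have w7' : w 7 = 0 := by linarith
  have w8' : w 8 = 0 := by linarith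
  ext i
  fin_cases i <;> simpa

theorem liesFully_X : LiesFullyInHypersphere X := by
  refine ⟨⟨0, √291, by positivity, fun p => ?_⟩, fun w t hw => ?_⟩
  · rw [sub_zero, ← norm_X p, Real.sqrt_sq (norm_nonneg _)]
  · by_contra hcon
    push Not at hcon
    exact hw (full_X w t hcon)

/-- There is a 2-type surface lying fully in an even-dimensional hypersphere. -/
theorem result :
    ∃ (k : ℕ) (x : ℝ × ℝ → EuclideanSpace ℝ (Fin (2 * k + 1))),
      IsImmersion x ∧ IsTwoType x ∧ LiesFullyInHypersphere x :=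
  ⟨4, X, isImmersion_X, isTwoType_X, liesFully_X⟩

end Pool.Agent.Results.MP_1643f9_gt.FullEvenSphere
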